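import Mathlib

/-!
# Normal PEPS: contraction maps on squares, injectivity index, and tile tensors
-/

set_option autoImplicit false

namespace Pool.Agent.P8H43.NP

open Finset

/-- A tensor with physical index in `Fin d` and the four bond indices left, right, up, down in
`Fin D` (in this order). -/
abbrev Tensor (d D : ℕ) := Fin d → Fin D → Fin D → Fin D → Fin D → ℂ

/-- Labels of all edges which touch the `n × n` square: the horizontal edge `(i, y)`, `i ≤ n`, is
left of the vertex `(i, y)` and right of the vertex `(i - 1, y)`; the vertical edge `(x, j)`,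
`j ≤ n`, is above the vertex `(x, j)` and below the vertex `(x, j - 1)`. -/
abbrev Edges (n D : ℕ) := (Fin (n + 1) → Fin n → Fin D) × (Fin n → Fin (n + 1) → Fin D)

/-- Labels of the `4 n` boundary edges: left, right, upper, lower ones. -/
abbrev Bdry (n D : ℕ) :=
  (Fin n → Fin D) × (Fin n → Fin D) × (Fin n → Fin D) × (Fin n → Fin D)

/-- The restriction of a labelling to the boundary edges. -/
def bd {n D : ℕ} (c : Edges n D) : Bdry n D :=
  (fun y => c.1 0 y, fun y => c.1 (Fin.last n) y, fun x => c.2 x 0, fun x => c.2 x (Fin.last n))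

/-- The linear map of the `n × n` square: the network of copies of `A` on the square with the
boundary vector `φ` on the `4 n` outgoing edges is contracted. -/
noncomputable def Gam {d D : ℕ} (A : Tensor d D) (n : ℕ) (φ : Bdry n D → ℂ)
    (s : Fin n → Fin n → Fin d) : ℂ :=
  ∑ c : Edges n D, φ (bd c) * ∏ x, ∏ y,
    A (s x y) (c.1 x.castSucc y) (c.1 x.succ y) (c.2 x y.castSucc) (c.2 x y.succ)

/-- The tensor is normal: the map of some `n × n` square, `n ≥ 1`, is injective. -/
def Normal {d D : ℕ} (A : Tensor d D) : Prop := ∃ n, 1 ≤ n ∧ Function.Injective (Gam A n)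

/-- The injectivity index: the least such `n`. -/
noncomputable def index {d D : ℕ} (A : Tensor d D) : ℕ :=
  sInf {n | 1 ≤ n ∧ Function.Injective (Gam A n)}

/-- The sharpest bound for the injectivity index of normal tensors with bond dimension `D`. -/
noncomputable def F (D : ℕ) : ℕ∞ :=
  ⨆ (d : ℕ) (_ : 1 ≤ d) (A : Tensor d D) (_ : Normal A), (index A : ℕ∞)

/-- A numbering of all tiles. -/
noncomputable def tileEquiv (D : ℕ) : Fin (D ^ 4) ≃ Fin D × Fin D × Fin D × Fin D :=
  Fintype.equivOfCardEq (by simp; ring)

open Classical in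
/-- The tile tensor of a set `T` of allowed tiles (left, right, up, down): the physical index is
the tile itself, and the entry is `1` if the bond indices are its labels and the tile is allowed. -/
noncomputable def tile {D : ℕ} (T : Fin D → Fin D → Fin D → Fin D → Prop) : Tensor (D ^ 4) D :=
  fun s l r u b => if tileEquiv D s = (l, r, u, b) ∧ T l r u b then 1 else 0

/-- Every labelling of the boundary of the `n × n` square extends to a tiling. -/
def Ext {D : ℕ} (T : Fin D → Fin D → Fin D → Fin D → Prop) (n : ℕ) : Prop :=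
  ∀ b : Bdry n D, ∃ c : Edges n D, bd c = b ∧
    ∀ x y, T (c.1 x.castSucc y) (c.1 x.succ y) (c.2 x y.castSucc) (c.2 x y.succ)

theorem edges_ext {n D : ℕ} {c c' : Edges n D}
    (h : ∀ x y, (c.1 x.castSucc y, c.1 x.succ y, c.2 x y.castSucc, c.2 x y.succ) =
      (c'.1 x.castSucc y, c'.1 x.succ y, c'.2 x y.castSucc, c'.2 x y.succ)) : c = c' := by
  simp only [Prod.mk.injEq] at h
  refine Prod.ext ?_ ?_
  · funext i y
    cases n with
    | zero => exact y.elim0
    | succ m =>
      induction i using Fin.lastCases with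
      | last => exact (h (Fin.last m) y).2.1
      | cast x => exact (h x y).1
  · funext x j
    cases n with
    | zero => exact x.elim0
    | succ m =>
      induction j using Fin.lastCases with
      | last => exact (h x (Fin.last m)).2.2.2
      | cast y => exact (h x y).2.2.1

theorem prod_tile {n D : ℕ} (T : Fin D → Fin D → Fin D → Fin D → Prop)
    (s : Fin n → Fin n → Fin (D ^ 4)) (c : Edges n D) :
    (∏ x, ∏ y, tile T (s x y) (c.1 x.castSucc y) (c.1 x.succ y) (c.2 x y.castSucc)
      (c.2 x y.succ)) ≠ 0 ↔
    (∀ x y, tileEquiv D (s x y) =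
      (c.1 x.castSucc y, c.1 x.succ y, c.2 x y.castSucc, c.2 x y.succ)) ∧
    ∀ x y, T (c.1 x.castSucc y) (c.1 x.succ y) (c.2 x y.castSucc) (c.2 x y.succ) := by
  rw [Finset.prod_ne_zero_iff]
  constructor
  · intro h
    have h2 : ∀ x y, tileEquiv D (s x y) =
        (c.1 x.castSucc y, c.1 x.succ y, c.2 x y.castSucc, c.2 x y.succ) ∧
        T (c.1 x.castSucc y) (c.1 x.succ y) (c.2 x y.castSucc) (c.2 x y.succ) := by
      intro x y
      have h3 := h x (Finset.mem_univ _)
      rw [Finset.prod_ne_zero_iff] at h3
      have h4 := h3 y (Finset.mem_univ _)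
      unfold tile at h4
      by_contra hc
      rw [if_neg hc] at h4
      exact h4 rfl
    exact ⟨fun x y => (h2 x y).1, fun x y => (h2 x y).2⟩
  · rintro ⟨h1, h2⟩ x _
    rw [Finset.prod_ne_zero_iff]
    intro y _
    unfold tile
    rw [if_pos ⟨h1 x y, h2 x y⟩]
    exact one_ne_zero

theorem prod_tile_eq {n D : ℕ} (T : Fin D → Fin D → Fin D → Fin D → Prop)
    (s : Fin n → Fin n → Fin (D ^ 4)) (c : Edges n D)
    (h1 : ∀ x y, tileEquiv D (s x y) =
      (c.1 x.castSucc y, c.1 x.succ y, c.2 x y.castSucc, c.2 x y.succ))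
    (h2 : ∀ x y, T (c.1 x.castSucc y) (c.1 x.succ y) (c.2 x y.castSucc) (c.2 x y.succ)) :
    (∏ x, ∏ y, tile T (s x y) (c.1 x.castSucc y) (c.1 x.succ y) (c.2 x y.castSucc)
      (c.2 x y.succ)) = 1 := by
  refine Finset.prod_eq_one fun x _ => Finset.prod_eq_one fun y _ => ?_
  unfold tile
  rw [if_pos ⟨h1 x y, h2 x y⟩]

/-- **Injectivity for tile tensors is extendability of all boundary labellings.** -/
theorem inj_iff {n D : ℕ} (T : Fin D → Fin D → Fin D → Fin D → Prop) :
    Function.Injective (Gam (tile T) n) ↔ Ext T n := by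
  constructor
  · intro h b
    by_contra hc
    push Not at hc
    have h1 : Gam (tile T) n (Pi.single b 1) = Gam (tile T) n 0 := by
      funext s
      unfold Gam
      refine Finset.sum_congr rfl fun c _ => ?_
      by_cases hb : bd c = b
      · obtain ⟨x, y, hxy⟩ := hc c hb
        have h2 : (∏ x, ∏ y, tile T (s x y) (c.1 x.castSucc y) (c.1 x.succ y)
            (c.2 x y.castSucc) (c.2 x y.succ)) = 0 := by
          by_contra h3
          exact hxy (((prod_tile T s c).1 h3).2 x y)
        rw [h2, mul_zero, mul_zero]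
      · rw [Pi.single_eq_of_ne hb]
        simp
    have h2 := congrFun (h h1) b
    simp at h2
  · intro h φ ψ hφ
    funext b
    obtain ⟨c₀, hb, hT⟩ := h b
    have key : ∀ φ : Bdry n D → ℂ, Gam (tile T) n φ (fun x y => (tileEquiv D).symm
        (c₀.1 x.castSucc y, c₀.1 x.succ y, c₀.2 x y.castSucc, c₀.2 x y.succ)) = φ b := by
      intro φ
      unfold Gam
      rw [Finset.sum_eq_single c₀]
      · rw [prod_tile_eq T _ c₀ (fun x y => by simp) hT, mul_one, hb]
      · intro c _ hc
        rw [mul_eq_zero]
        right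
        by_contra h3
        refine hc (edges_ext fun x y => ?_)
        have h4 := ((prod_tile T _ c).1 h3).1 x y
        rw [Equiv.apply_symm_apply] at h4
        exact h4.symm
      · intro h5
        exact absurd (Finset.mem_univ _) h5
    rw [← key φ, ← key ψ, hφ]

end Pool.Agent.P8H43.NP
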