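import Pool.Agent.P8H43.NP.Defs

/-!
# Row tensors: the sharp bound `2 ^ D - 2`
-/

set_option autoImplicit false

namespace Pool.Agent.P8H43.NP

open Finset

/-- The set of labels reached from the set `S` when the letter `u` is read. -/
def img {D : ℕ} (M : Fin D → Fin D → Finset (Fin D)) (u : Fin D) (S : Finset (Fin D)) :
    Finset (Fin D) := S.biUnion (M u)

/-- The set of labels reached from `l` when the word `w` is read up to the position `k`. -/
def rch {D : ℕ} (M : Fin D → Fin D → Finset (Fin D)) (w : ℕ → Fin D) (l : Fin D) :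
    ℕ → Finset (Fin D)
  | 0 => {l}
  | k + 1 => img M (w k) (rch M w l k)

theorem mem_rch_succ {D : ℕ} {M : Fin D → Fin D → Finset (Fin D)} {w : ℕ → Fin D} {l r : Fin D}
    {k : ℕ} : r ∈ rch M w l (k + 1) ↔ ∃ j ∈ rch M w l k, r ∈ M (w k) j := by
  simp only [rch, img, Finset.mem_biUnion]

theorem exists_path {D : ℕ} {M : Fin D → Fin D → Finset (Fin D)} {w : ℕ → Fin D} {l : Fin D}
    (k : ℕ) {r : Fin D} (h : r ∈ rch M w l k) :
    ∃ p : ℕ → Fin D, p 0 = l ∧ p k = r ∧ ∀ i < k, p (i + 1) ∈ M (w i) (p i) := by
  induction k generalizing r with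
  | zero =>
    rw [rch, Finset.mem_singleton] at h
    exact ⟨fun _ => l, rfl, h.symm, fun i hi => absurd hi (by omega)⟩
  | succ k ih =>
    obtain ⟨j, hj, hr⟩ := mem_rch_succ.1 h
    obtain ⟨p, h0, hk, hp⟩ := ih hj
    refine ⟨fun i => if i ≤ k then p i else r, by simp [h0], by simp, fun i hi => ?_⟩
    rcases Nat.lt_or_ge i k with hik | hik
    · have h1 : i ≤ k := hik.le
      have h2 : i + 1 ≤ k := hik
      simp only [h1, h2, if_true]
      exact hp i hik
    · have h1 : i = k := by omega
      subst h1
      have h2 : ¬ i + 1 ≤ i := by omega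
      simp only [h2, if_false, le_refl, if_true]
      rw [hk]
      exact hr

theorem mem_of_path {D : ℕ} {M : Fin D → Fin D → Finset (Fin D)} {w : ℕ → Fin D}
    (p : ℕ → Fin D) (k : ℕ) (hp : ∀ i < k, p (i + 1) ∈ M (w i) (p i)) :
    p k ∈ rch M w (p 0) k := by
  induction k with
  | zero => simp [rch]
  | succ k ih =>
    exact mem_rch_succ.2 ⟨p k, ih fun i hi => hp i (by omega), hp k (by omega)⟩

/-- All words of length `n` lead from every label to every label. -/
def Full {D : ℕ} (M : Fin D → Fin D → Finset (Fin D)) (n : ℕ) : Prop :=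
  ∀ (w : ℕ → Fin D) (l : Fin D), rch M w l n = univ

/-- The row tensor of `M`: the tile is allowed if its right label is in `M u l`, where `u` and `l`
are its upper and left label; the lower label is free. -/
def rowTiles {D : ℕ} (M : Fin D → Fin D → Finset (Fin D)) :
    Fin D → Fin D → Fin D → Fin D → Prop := fun l r u _ => r ∈ M u l

theorem ext_iff_full {D : ℕ} (M : Fin D → Fin D → Finset (Fin D)) {n : ℕ} (hn : 1 ≤ n) :
    Ext (rowTiles M) n ↔ Full M n := by
  obtain ⟨m, rfl⟩ : ∃ m, n = m + 1 := ⟨n - 1, by omega⟩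
  constructor
  · intro h w l
    refine Finset.eq_univ_of_forall fun r => ?_
    obtain ⟨c, hb, hc⟩ := h (fun _ => l, fun _ => r, fun x => w x, fun _ => l)
    have h1 : c.1 0 0 = l := congrFun (congrArg Prod.fst hb) 0
    have h2 : c.1 (Fin.last _) 0 = r := congrFun (congrArg (fun b => b.2.1) hb) 0
    have h3 : ∀ x, c.2 x 0 = w x := fun x => congrFun (congrArg (fun b => b.2.2.1) hb) x
    have h4 := mem_of_path (M := M) (w := w)
      (fun i => if hi : i < m + 2 then c.1 ⟨i, hi⟩ 0 else l) (m + 1) ?_
    · simp only [Nat.lt_succ_self, dif_pos, Nat.zero_lt_succ] at h4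
      have h5 : c.1 ⟨0, by omega⟩ 0 = l := h1
      have h6 : c.1 ⟨m + 1, by omega⟩ 0 = r := h2
      have h7 : m + 1 < m + 2 := by omega
      have h8 : 0 < m + 2 := by omega
      simp only [h5, h6] at h4
      exact h4
    · intro i hi
      have h5 : i + 1 < m + 2 := by omega
      have h6 : i < m + 2 := by omega
      simp only [h5, h6, dif_pos]
      have h7 := hc ⟨i, hi⟩ 0
      unfold rowTiles at h7
      have h8 : c.2 ⟨i, hi⟩ (Fin.castSucc 0) = w i := h3 ⟨i, hi⟩
      rw [h8] at h7
      exact h7
  · rintro h ⟨L, R, U, B⟩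
    let w : ℕ → Fin D := fun i => if hi : i < m + 1 then U ⟨i, hi⟩ else U 0
    have hw : ∀ x : Fin (m + 1), w x = U x := fun x => by
      have h5 : (x : ℕ) < m + 1 := x.isLt
      show (if hi : (x : ℕ) < m + 1 then U ⟨x, hi⟩ else U 0) = U x
      rw [dif_pos h5]
    have hp : ∀ y : Fin (m + 1), ∃ p : ℕ → Fin D, p 0 = L y ∧ p (m + 1) = R y ∧
        ∀ i < m + 1, p (i + 1) ∈ M (w i) (p i) := fun y =>
      exists_path (m + 1) (by rw [h w (L y)]; exact Finset.mem_univ _)
    choose p hp0 hpn hp1 using hp
    refine ⟨(fun i y => p y i, fun x j => if j = Fin.last (m + 1) then B x else U x), ?_, ?_⟩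
    · refine Prod.ext ?_ (Prod.ext ?_ (Prod.ext ?_ ?_))
      · funext y
        exact hp0 y
      · funext y
        exact hpn y
      · funext x
        have : (0 : Fin (m + 1 + 1)) ≠ Fin.last (m + 1) := by
          intro h5
          have := congrArg Fin.val h5
          simp at this
        simp [bd, this]
      · funext x
        simp [bd]
    · intro x y
      have h1 : y.castSucc ≠ Fin.last (m + 1) := (Fin.castSucc_lt_last y).ne
      show p y (x.succ : Fin (m + 2)) ∈ M (if y.castSucc = Fin.last (m + 1) then B x else U x)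
        (p y (x.castSucc : Fin (m + 2)))
      rw [if_neg h1, ← hw x]
      exact hp1 y x x.isLt

/-! ### The upper bound for row tensors -/

theorem img_mono {D : ℕ} {M : Fin D → Fin D → Finset (Fin D)} {u : Fin D} {S T : Finset (Fin D)}
    (h : S ⊆ T) : img M u S ⊆ img M u T := Finset.biUnion_subset_biUnion_of_subset_left _ h

/-- If all words of one length `n ≥ 1` are full then all words of length `2 ^ D - 2` are. -/
theorem full_bound {D : ℕ} (hD : 2 ≤ D) {M : Fin D → Fin D → Finset (Fin D)} {n : ℕ} (hn : 1 ≤ n)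
    (h : Full M n) : Full M (2 ^ D - 2) := by
  intro w l
  by_contra hcon
  obtain ⟨m, rfl⟩ : ∃ m, n = m + 1 := ⟨n - 1, by omega⟩
  have huniv : ∀ u, img M u univ = univ := by
    intro u
    have h1 := h (fun _ => u) l
    rw [rch] at h1
    refine Finset.eq_univ_of_forall fun r => ?_
    have h2 : r ∈ img M u (rch M (fun _ => u) l m) := by
      rw [h1]
      exact Finset.mem_univ _
    exact img_mono (Finset.subset_univ _) h2
  have hne : ∀ u j, (M u j).Nonempty := by
    intro u j
    by_contra hc
    rw [Finset.not_nonempty_iff_eq_empty] at hc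
    have h1 : ∀ k, rch M (fun _ => u) j (k + 1) = ∅ := by
      intro k
      induction k with
      | zero => simp [rch, img, hc]
      | succ k ih => rw [rch, ih]; simp [img]
    have h2 := h (fun _ => u) j
    rw [h1] at h2
    have h3 := Finset.mem_univ l
    rw [← h2] at h3
    exact absurd h3 (by simp)
  have hpos : ∀ k, (rch M w l k).Nonempty := by
    intro k
    induction k with
    | zero => simp [rch]
    | succ k ih =>
      obtain ⟨j, hj⟩ := ih
      obtain ⟨r, hr⟩ := hne (w k) j
      exact ⟨r, mem_rch_succ.2 ⟨j, hj, hr⟩⟩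
  have hstep : ∀ k, rch M w l k = univ → rch M w l (k + 1) = univ := by
    intro k hk
    rw [rch, hk, huniv]
  have hnot : ∀ k ≤ 2 ^ D - 2, rch M w l k ≠ univ := by
    intro k hk hc
    have h1 : ∀ i, rch M w l (k + i) = univ := by
      intro i
      induction i with
      | zero => exact hc
      | succ i ih => exact hstep _ ih
    have h2 := h1 (2 ^ D - 2 - k)
    rw [Nat.add_sub_cancel' hk] at h2
    exact hcon h2
  have h4 : 4 ≤ 2 ^ D := by
    calc 4 = 2 ^ 2 := by norm_num
      _ ≤ 2 ^ D := Nat.pow_le_pow_right (by norm_num) hD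
  -- pigeonhole on the proper nonempty sets
  have hpig : ∃ a b, a < b ∧ b ≤ 2 ^ D - 2 ∧ rch M w l a = rch M w l b := by
    let s : Finset (Finset (Fin D)) := (univ.erase ∅).erase univ
    have hs : s.card = 2 ^ D - 2 := by
      have hcu : (univ : Finset (Finset (Fin D))).card = 2 ^ D := by simp
      rw [Finset.card_erase_of_mem, Finset.card_erase_of_mem, hcu]
      · omega
      · exact Finset.mem_univ _
      · rw [Finset.mem_erase]
        refine ⟨?_, Finset.mem_univ _⟩
        intro h0
        have h3 := Finset.mem_univ l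
        rw [h0] at h3
        exact absurd h3 (by simp)
    have hmap : ∀ k ∈ Finset.range (2 ^ D - 1), rch M w l k ∈ s := by
      intro k hk
      rw [Finset.mem_range] at hk
      rw [Finset.mem_erase, Finset.mem_erase]
      exact ⟨hnot k (by omega), (hpos k).ne_empty, Finset.mem_univ _⟩
    obtain ⟨a, ha, b, hb, hab, he⟩ := Finset.exists_ne_map_eq_of_card_lt_of_maps_to
      (s := Finset.range (2 ^ D - 1)) (t := s) (by rw [hs, Finset.card_range]; omega) hmap
    rw [Finset.mem_range] at ha hb
    rcases Nat.lt_or_gt_of_ne hab with h5 | h5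
    · exact ⟨a, b, h5, by omega, he⟩
    · exact ⟨b, a, h5, by omega, he.symm⟩
  obtain ⟨a, b, hab, hb, he⟩ := hpig
  -- the periodic word
  let ix : ℕ → ℕ := fun k => if k < b then k else a + (k - a) % (b - a)
  have hix : ∀ k, ix k < b := by
    intro k
    by_cases hk : k < b
    · simp [ix, hk]
    · simp only [ix, hk, if_false]
      have := Nat.mod_lt (k - a) (show 0 < b - a by omega)
      omega
  have key : ∀ k, rch M (fun i => w (ix i)) l k = rch M w l (ix k) := by
    intro k
    induction k with
    | zero =>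
      have : ix 0 = 0 := by
        have : 0 < b := by omega
        simp [ix, this]
      rw [this]
      rfl
    | succ k ih =>
      rw [rch, ih]
      have h5 : rch M w l (ix k + 1) = rch M w l (ix (k + 1)) := by
        by_cases hk : k + 1 < b
        · have h6 : k < b := by omega
          simp [ix, hk, h6]
        · by_cases h6 : k < b
          · have h7 : k + 1 = b := by omega
            have h8 : ix (k + 1) = a := by
              simp only [ix, hk, if_false]
              rw [h7, Nat.mod_self]
              rfl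
            have h9 : ix k = k := by simp [ix, h6]
            rw [h8, h9, h7, he]
          · have h8 : ix (k + 1) = a + (k + 1 - a) % (b - a) := by simp [ix, hk]
            have h9 : ix k = a + (k - a) % (b - a) := by simp [ix, h6]
            have h10 : k + 1 - a = (k - a) + 1 := by omega
            have h11 := Nat.mod_lt (k - a) (show 0 < b - a by omega)
            rcases Nat.lt_or_ge ((k - a) % (b - a) + 1) (b - a) with h12 | h12
            · have h13 : (k + 1 - a) % (b - a) = (k - a) % (b - a) + 1 := by
                rw [h10, Nat.add_mod, Nat.mod_eq_of_lt (a := 1) (by omega),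
                  Nat.mod_eq_of_lt h12]
              rw [h8, h9, h13]
              rfl
            · have h13 : (k - a) % (b - a) + 1 = b - a := by omega
              have h14 : (k + 1 - a) % (b - a) = 0 := by
                rw [h10, ← Nat.mod_add_mod, h13, Nat.mod_self]
              rw [h8, h9, h14]
              have h15 : a + (k - a) % (b - a) + 1 = b := by omega
              rw [h15, Nat.add_zero, he]
      rw [← h5]
      rfl
  have h6 := h (fun i => w (ix i)) l
  rw [key] at h6
  exact hnot _ ((hix _).le.trans hb) h6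

/-! ### The binary counter -/

/-- The counter: the letter `i` sends a smaller label to `i`, a larger label `j` to `i` and `j`,
and the label `i` to all labels. -/
def ctr (D : ℕ) (i j : Fin D) : Finset (Fin D) :=
  if j < i then {i} else if j = i then univ else {i, j}

/-- The binary value of a set of labels. -/
def val {D : ℕ} (S : Finset (Fin D)) : ℕ := ∑ j ∈ S, 2 ^ (j : ℕ)

theorem val_univ (D : ℕ) : val (univ : Finset (Fin D)) = 2 ^ D - 1 := by
  unfold val
  rw [Fin.sum_univ_eq_sum_range (fun i => 2 ^ i) D, Nat.geomSum_eq (le_refl 2)]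
  simp

theorem eq_univ_of_val {D : ℕ} {S : Finset (Fin D)} (h : 2 ^ D - 1 ≤ val S) : S = univ := by
  by_contra hc
  obtain ⟨x, hx⟩ : ∃ x, x ∉ S := by
    by_contra h2
    push Not at h2
    exact hc (Finset.eq_univ_of_forall h2)
  have h1 : val S < val (univ : Finset (Fin D)) := by
    refine Finset.sum_lt_sum_of_subset (Finset.subset_univ _) (Finset.mem_univ x) hx ?_ ?_
    · positivity
    · intros
      exact Nat.zero_le _
  rw [val_univ] at h1
  omega

theorem sum_lt_pow {D : ℕ} (S : Finset (Fin D)) (i : ℕ) (h : ∀ j ∈ S, (j : ℕ) < i) :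
    ∑ j ∈ S, 2 ^ (j : ℕ) < 2 ^ i := by
  have h1 : ∑ j ∈ S, 2 ^ (j : ℕ) = ∑ k ∈ S.map Fin.valEmbedding, 2 ^ k := by
    rw [Finset.sum_map]
    rfl
  rw [h1]
  have h2 : S.map Fin.valEmbedding ⊆ Finset.range i := by
    intro k hk
    rw [Finset.mem_map] at hk
    obtain ⟨j, hj, rfl⟩ := hk
    exact Finset.mem_range.2 (h j hj)
  have h3 := Finset.sum_le_sum_of_subset (f := fun k => 2 ^ k) h2
  have h4 : ∑ k ∈ Finset.range i, 2 ^ k = 2 ^ i - 1 := by
    rw [Nat.geomSum_eq (le_refl 2)]
    simp
  have h5 : 0 < 2 ^ i := by positivity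
  omega

theorem img_ctr {D : ℕ} (i : Fin D) {S : Finset (Fin D)} (hS : S.Nonempty) :
    img (ctr D) i S = univ ∨ val S + 1 ≤ val (img (ctr D) i S) := by
  by_cases hi : i ∈ S
  · left
    refine Finset.eq_univ_of_forall fun r => ?_
    rw [img, Finset.mem_biUnion]
    exact ⟨i, hi, by simp [ctr]⟩
  · right
    have h1 : img (ctr D) i S = insert i (S.filter (fun j => i < j)) := by
      ext r
      simp only [img, Finset.mem_biUnion, Finset.mem_insert, Finset.mem_filter]
      constructor
      · rintro ⟨j, hj, hr⟩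
        unfold ctr at hr
        by_cases h2 : j < i
        · rw [if_pos h2, Finset.mem_singleton] at hr
          exact Or.inl hr
        · rw [if_neg h2] at hr
          have h3 : j ≠ i := fun h => hi (h ▸ hj)
          rw [if_neg h3] at hr
          simp only [Finset.mem_insert, Finset.mem_singleton] at hr
          rcases hr with hr | hr
          · exact Or.inl hr
          · right
            rw [hr]
            exact ⟨hj, lt_of_le_of_ne (not_lt.1 h2) (Ne.symm h3)⟩
      · rintro (hr | ⟨hr, hlt⟩)
        · obtain ⟨j, hj⟩ := hS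
          refine ⟨j, hj, ?_⟩
          rw [hr]
          unfold ctr
          split_ifs <;> simp
        · refine ⟨r, hr, ?_⟩
          unfold ctr
          rw [if_neg (not_lt.2 hlt.le), if_neg hlt.ne']
          simp
    rw [h1]
    unfold val
    rw [Finset.sum_insert (by simp)]
    have h2 : ∑ j ∈ S, 2 ^ (j : ℕ) = ∑ j ∈ S.filter (fun j => i < j), 2 ^ (j : ℕ) +
        ∑ j ∈ S.filter (fun j => ¬ i < j), 2 ^ (j : ℕ) :=
      (Finset.sum_filter_add_sum_filter_not S _ _).symm
    have h3 : ∑ j ∈ S.filter (fun j => ¬ i < j), 2 ^ (j : ℕ) < 2 ^ (i : ℕ) := by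
      refine sum_lt_pow _ _ fun j hj => ?_
      rw [Finset.mem_filter] at hj
      have h4 : j ≠ i := fun h => hi (h ▸ hj.1)
      have h5 : j < i := lt_of_le_of_ne (not_lt.1 hj.2) h4
      exact h5
    omega

theorem ctr_univ {D : ℕ} (i : Fin D) : img (ctr D) i univ = univ := by
  refine Finset.eq_univ_of_forall fun r => ?_
  rw [img, Finset.mem_biUnion]
  exact ⟨i, Finset.mem_univ _, by simp [ctr]⟩

theorem rch_ctr {D : ℕ} (w : ℕ → Fin D) (l : Fin D) (k : ℕ) :
    (rch (ctr D) w l k).Nonempty ∧
    (rch (ctr D) w l k = univ ∨ k + 1 ≤ val (rch (ctr D) w l k)) := by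
  induction k with
  | zero =>
    refine ⟨by simp [rch], Or.inr ?_⟩
    simp only [rch, val, Finset.sum_singleton]
    exact Nat.one_le_two_pow
  | succ k ih =>
    obtain ⟨h1, h2⟩ := ih
    constructor
    · obtain ⟨j, hj⟩ := h1
      refine ⟨w k, mem_rch_succ.2 ⟨j, hj, ?_⟩⟩
      unfold ctr
      split_ifs <;> simp
    · rcases h2 with h2 | h2
      · left
        rw [rch, h2, ctr_univ]
      · rcases img_ctr (w k) h1 with h3 | h3
        · exact Or.inl h3
        · right
          rw [rch]
          omega

theorem full_ctr (D : ℕ) {n : ℕ} (hn : 2 ^ D - 2 ≤ n) : Full (ctr D) n := by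
  intro w l
  rcases (rch_ctr w l n).2 with h | h
  · exact h
  · exact eq_univ_of_val (by omega)

/-- The lowest digit `0`. -/
theorem exists_low (m : ℕ) : ∃ i, m.testBit i = false ∧ ∀ j < i, m.testBit j = true := by
  have h : ∃ i, m.testBit i = false := ⟨m, Nat.testBit_lt_two_pow Nat.lt_two_pow_self⟩
  refine ⟨Nat.find h, Nat.find_spec h, fun j hj => ?_⟩
  have := Nat.find_min h hj
  simpa using this

/-- The number `m` whose digits below `i` are `1` and whose digit `i` is `0`. -/
theorem low_form {m i : ℕ} (h0 : m.testBit i = false) (h1 : ∀ j < i, m.testBit j = true) :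
    m = 2 ^ (i + 1) * (m / 2 ^ (i + 1)) + (2 ^ i - 1) := by
  have h2 : m % 2 ^ (i + 1) = 2 ^ i - 1 := by
    apply Nat.eq_of_testBit_eq
    intro j
    rw [Nat.testBit_mod_two_pow, Nat.testBit_two_pow_sub_one]
    by_cases hj : j < i
    · simp [hj, h1 j hj, Nat.lt_succ_of_lt hj]
    · by_cases hj2 : j = i
      · subst hj2
        simp [h0]
      · have h3 : ¬ j < i + 1 := by omega
        simp [hj, h3]
  have h3 := Nat.div_add_mod m (2 ^ (i + 1))
  omega

theorem low_succ {m i : ℕ} (h0 : m.testBit i = false) (h1 : ∀ j < i, m.testBit j = true) :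
    (m + 1).testBit i = true ∧ ∀ j, i < j → (m + 1).testBit j = m.testBit j := by
  have hf := low_form h0 h1
  have hp : 0 < 2 ^ i := by positivity
  have e1 : m + 1 = 2 ^ (i + 1) * (m / 2 ^ (i + 1)) + 2 ^ i := by omega
  have hlt : 2 ^ i < 2 ^ (i + 1) := Nat.pow_lt_pow_right (by norm_num) (by omega)
  constructor
  · rw [e1, Nat.testBit_two_pow_mul_add _ hlt]
    simp
  · intro j hj
    rw [e1]
    conv_rhs => rw [hf]
    rw [Nat.testBit_two_pow_mul_add _ hlt, Nat.testBit_two_pow_mul_add _ (by omega)]
    have h3 : ¬ j < i + 1 := by omega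
    rw [if_neg h3, if_neg h3]

theorem exists_zero_lt {D m : ℕ} (h : m < 2 ^ D - 1) {i : ℕ} (h1 : ∀ j < i, m.testBit j = true) :
    i < D := by
  by_contra hc
  have h2 : 2 ^ D - 1 ≤ m % 2 ^ D := by
    have h3 : m % 2 ^ D = 2 ^ D - 1 := by
      apply Nat.eq_of_testBit_eq
      intro j
      rw [Nat.testBit_mod_two_pow, Nat.testBit_two_pow_sub_one]
      by_cases hj : j < D
      · simp [hj, h1 j (by omega)]
      · simp [hj]
    omega
  have h3 := Nat.mod_le m (2 ^ D)
  omega

/-- The lowest digit `0` of a number. -/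
noncomputable def low (m : ℕ) : ℕ := Classical.choose (exists_low m)

theorem low_spec (m : ℕ) : m.testBit (low m) = false ∧ ∀ j < low m, m.testBit j = true :=
  Classical.choose_spec (exists_low m)

theorem low_lt {D m : ℕ} (h : m < 2 ^ D - 1) : low m < D := exists_zero_lt h (low_spec m).2

/-- There is a word of length `2 ^ D - 3` which is not full. -/
theorem not_full_ctr {D : ℕ} (hD : 2 ≤ D) {n : ℕ} (hn : n < 2 ^ D - 2) : ¬ Full (ctr D) n := by
  intro h
  let z : Fin D := ⟨0, by omega⟩
  let w : ℕ → Fin D := fun k => if hk : low (k + 1) < D then ⟨low (k + 1), hk⟩ else z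
  have hw : ∀ k, k + 1 < 2 ^ D - 1 → ((w k : Fin D) : ℕ) = low (k + 1) := by
    intro k hk
    have := low_lt hk
    simp [w, this]
  have key : ∀ k, k ≤ n → ∀ j ∈ rch (ctr D) w z k, (k + 1).testBit (j : ℕ) = true := by
    intro k
    induction k with
    | zero =>
      intro _ j hj
      rw [rch, Finset.mem_singleton] at hj
      rw [hj]
      simp [z]
    | succ k ih =>
      intro hk r hr
      obtain ⟨j, hj, hr⟩ := mem_rch_succ.1 hr
      have h1 := ih (by omega) j hj
      have h2 := hw k (by omega)
      obtain ⟨h3, h4⟩ := low_spec (k + 1)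
      obtain ⟨h5, h6⟩ := low_succ h3 h4
      unfold ctr at hr
      by_cases h7 : j < w k
      · rw [if_pos h7, Finset.mem_singleton] at hr
        rw [hr, h2]
        exact h5
      · rw [if_neg h7] at hr
        by_cases h8 : j = w k
        · rw [h8, h2, h3] at h1
          exact absurd h1 (by simp)
        · rw [if_neg h8] at hr
          simp only [Finset.mem_insert, Finset.mem_singleton] at hr
          rcases hr with hr | hr
          · rw [hr, h2]
            exact h5
          · rw [hr]
            have h9 : low (k + 1) < (j : ℕ) := by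
              have h10 : w k < j := lt_of_le_of_ne (not_lt.1 h7) (Ne.symm h8)
              rw [← h2]
              exact h10
            rw [h6 _ h9]
            exact h1
  have h1 : n + 1 < 2 ^ D - 1 := by omega
  have h2 : (⟨low (n + 1), low_lt h1⟩ : Fin D) ∈ rch (ctr D) w z n := by
    rw [h w z]
    exact Finset.mem_univ _
  have h3 := key n le_rfl _ h2
  rw [(low_spec (n + 1)).1] at h3
  exact absurd h3 (by simp)

end Pool.Agent.P8H43.NP
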